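import Mathlib
import Pool.Agent.R829.DL.Main

/-!
# Lower bounds for canonical heights over Galois and abelian extensions

Let `f` be an endomorphism of degree `d ≥ 2` of `P^N`, `N ≥ 1`, over a number field `K`, and
`ε > 0`. There is a constant `C` such that the following holds. Let `K ⊆ k ⊆ L` be finite
extensions, `B = [k : K]`, `G = [L : k]`, `D = [L : K]`, let `P` be a wandering point of `P^N(L)`
and let `λ` be the number of different fields among the `k(f^i(P))`, `i ≥ 0`; one has
`λ ≤ 1 + Ω(G)`. Then

* `ĥ(P) ≥ exp (-(C * R * D ^ ε))`, and `ĥ(P) ≥ exp (-(C * R * λ * (1 + log D)))` if `N = 1`,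

where `R` may be any of the following numbers:

* `R = B ^ N * G ^ (N - 1)` if `L` is abelian over `k`, or if all `k(f^i(P))` are Galois over `k`;
* `R = B ^ N * G ^ (N ^ 2 / (N + 1))` if `L` is Galois over `k`;
* `R` any number such that for every `i` there is a field `M` between `k` and `L` with
  `[M : K] ^ N ≤ R * #Hom_k(k(f^i(P)), M)`.

So on the projective line, for `k = K`: `ĥ(P) ≥ exp (-(C * (1 + Ω(D)) * (1 + log D)))` for the
wandering points over abelian extensions of degree `D`.
-/

set_option autoImplicit false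

namespace Pool.Agent.Results.MP_2194ec_nt.GaloisExtensions

open MvPolynomial NumberField Module Filter Topology

/-- the map defined by a tuple of forms over `K`, on coordinate vectors over an extension `L` -/
noncomputable def evalMap {K L : Type} [Field K] [Field L] [Algebra K L] {N : ℕ}
    (F : Fin (N + 1) → MvPolynomial (Fin (N + 1)) K) (y : Fin (N + 1) → L) : Fin (N + 1) → L :=
  fun i => aeval y (F i)

/-- the point with coordinate vector `x` is wandering: its iterates are pairwise distinct points
of the projective space -/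
def Wandering {K L : Type} [Field K] [Field L] [Algebra K L] {N : ℕ}
    (F : Fin (N + 1) → MvPolynomial (Fin (N + 1)) K) (x : Fin (N + 1) → L) : Prop :=
  ¬ ∃ m n : ℕ, m ≠ n ∧ ∃ c : L, c ≠ 0 ∧ (evalMap F)^[n] x = c • (evalMap F)^[m] x

/-- `h` is the canonical height of the point with coordinate vector `x` over the number field `L`:
the limit of `h(F^n(x)) / d ^ n`, where `h` is the absolute logarithmic Weil height, that is
Mathlib's (relative) `Height.logHeight` divided by `[L : ℚ]` -/
def IsCanonicalHeight {K L : Type} [Field K] [Field L] [NumberField L] [Algebra K L] {N : ℕ}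
    (F : Fin (N + 1) → MvPolynomial (Fin (N + 1)) K) (d : ℕ) (x : Fin (N + 1) → L) (h : ℝ) :
    Prop :=
  Tendsto (fun n : ℕ => Height.logHeight ((evalMap F)^[n] x) /
    ((finrank ℚ L : ℝ) * (d : ℝ) ^ n)) atTop (𝓝 h)

/-- the field `k(P)` generated over `k` by the ratios `x_i / x_j` of the coordinates of the point
`P` with coordinate vector `x` -/
def fieldOfDefinition (k : Type) {L : Type} [Field k] [Field L] [Algebra k L] {N : ℕ}
    (x : Fin (N + 1) → L) : IntermediateField k L :=
  IntermediateField.adjoin k (Set.range fun ij : Fin (N + 1) × Fin (N + 1) => x ij.1 / x ij.2)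

/-- the field `k(f^i(P))` -/
noncomputable def iterField (k : Type) {K L : Type} [Field k] [Field K] [Field L] [Algebra K L] [Algebra k L]
    {N : ℕ} (F : Fin (N + 1) → MvPolynomial (Fin (N + 1)) K) (x : Fin (N + 1) → L) (i : ℕ) :
    IntermediateField k L :=
  fieldOfDefinition k ((evalMap F)^[i] x)

/-- the number of different fields among the `k(f^i(P))`, `i ≥ 0` -/
noncomputable def levels (k : Type) {K L : Type} [Field k] [Field K] [Field L] [Algebra K L]
    [Algebra k L] {N : ℕ} (F : Fin (N + 1) → MvPolynomial (Fin (N + 1)) K)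
    (x : Fin (N + 1) → L) : ℕ :=
  (Set.range fun i : ℕ => iterField k F x i).ncard

/-- the lower bounds for `h`, in terms of the number `R`, the degree `D` and the number `lv` -/
def LowerBounds (N : ℕ) (ε C R : ℝ) (D lv : ℕ) (h : ℝ) : Prop :=
  Real.exp (-(C * R * (D : ℝ) ^ ε)) ≤ h ∧
    (N = 1 → Real.exp (-(C * R * lv * (1 + Real.log D))) ≤ h)

/-- **Main result.** -/
theorem result (K : Type) [Field K] [NumberField K] (N d : ℕ) (hN : 1 ≤ N) (hd : 2 ≤ d)
    (F : Fin (N + 1) → MvPolynomial (Fin (N + 1)) K) (hF : ∀ i, (F i).IsHomogeneous d)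
    (hmor : ∀ z : Fin (N + 1) → AlgebraicClosure K, (∀ i, aeval z (F i) = 0) → z = 0)
    (ε : ℝ) (hε : 0 < ε) :
    ∃ C : ℝ, 0 < C ∧ ∀ (k L : Type) [Field k] [NumberField k] [Field L] [NumberField L]
      [Algebra K k] [Algebra K L] [Algebra k L] [IsScalarTower K k L]
      (x : Fin (N + 1) → L), x ≠ 0 → Wandering F x →
      levels k F x ≤ 1 + ArithmeticFunction.cardFactors (finrank k L) ∧
      ∃ h : ℝ, IsCanonicalHeight F d x h ∧
        -- the general criterion
        (∀ R : ℝ, (∀ i : ℕ, ∃ M : IntermediateField k L,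
            (finrank K M : ℝ) ^ N ≤ R * Nat.card (iterField k F x i →ₐ[k] M)) →
          LowerBounds N ε C R (finrank K L) (levels k F x) h) ∧
        -- Galois extensions
        (IsGalois k L → LowerBounds N ε C
          ((finrank K k : ℝ) ^ N * (finrank k L : ℝ) ^ ((N : ℝ) ^ 2 / (N + 1)))
          (finrank K L) (levels k F x) h) ∧
        -- abelian extensions
        ((IsAbelianGalois k L ∨ ∀ i : ℕ, IsGalois k (iterField k F x i)) → LowerBounds N ε C
          ((finrank K k : ℝ) ^ N * (finrank k L : ℝ) ^ (N - 1))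
          (finrank K L) (levels k F x) h) := by
  obtain ⟨C, hC, h⟩ := R829.DL.main K N d hN hd F hF hmor ε hε
  refine ⟨C, hC, ?_⟩
  intro k L _ _ _ _ _ _ _ _ x hx hw
  obtain ⟨h1, h2, h3, h4, h5⟩ := h k L x hx hw
  refine ⟨h2, W238.Leh.canH F d x, h1, h3, h4, ?_⟩
  rintro (hab | hG)
  · exact h5 fun i => inferInstance
  · exact h5 hG

end Pool.Agent.Results.MP_2194ec_nt.GaloisExtensions
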